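import Pool.Agent.helper80.HH.SpecA
import Pool.Agent.helper15.IR.PAV

/-!
# HH, row AHK: one bad `w`
-/

open MeasureTheory Set

set_option autoImplicit false

namespace Pool.Agent.HH

noncomputable section

lemma AHK_ps (P : Finset ℤ) (u : ℝ) : ‖IR.ps P u‖ ≤ P.card := by
  unfold IR.ps
  refine (norm_sum_le _ _).trans ?_
  have h : ∀ p ∈ P, ‖Complex.exp (((p * u : ℝ) : ℂ) * Complex.I)‖ ≤ 1 := fun p _ => by
    rw [Complex.norm_exp_ofReal_mul_I]
  calc ∑ p ∈ P, ‖Complex.exp (((p * u : ℝ) : ℂ) * Complex.I)‖ ≤ ∑ p ∈ P, (1 : ℝ) := Finset.sum_le_sum h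
    _ = P.card := by rw [Finset.sum_const, nsmul_eq_mul, mul_one]

lemma AHK_b (P : Finset ℤ) (s F y0 : ℝ) (Y : Set ℝ) (hY : Y ⊆ Icc 0 1) (hF : (P.card : ℝ) ≤ F)
    (hv : volume.real Y ≤ y0) (hy0 : 0 ≤ y0) :
    Real.sqrt (∫ v in Y, ∫ v' in Y, ‖IR.ps P (s * (v - v'))‖ ^ 2) ≤ y0 * F := by
  have hF0 : 0 ≤ F := le_trans (by positivity) hF
  have hYf : volume Y < ⊤ := (measure_mono hY).trans_lt (by simp)
  have hv0 : 0 ≤ volume.real Y := measureReal_nonneg
  have k1 : ∀ v ∈ Y, ‖∫ v' in Y, ‖IR.ps P (s * (v - v'))‖ ^ 2‖ ≤ F ^ 2 * volume.real Y := fun v _ => by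
    refine norm_setIntegral_le_of_norm_le_const hYf (fun v' _ => ?_)
    rw [Real.norm_of_nonneg (by positivity)]
    exact pow_le_pow_left₀ (norm_nonneg _) ((AHK_ps P _).trans hF) 2
  have k2 := norm_setIntegral_le_of_norm_le_const (μ := volume) hYf k1
  rw [Real.sqrt_le_left (by positivity)]
  refine (le_abs_self _).trans (k2.trans ?_)
  calc F ^ 2 * volume.real Y * volume.real Y ≤ F ^ 2 * y0 * y0 := by gcongr
    _ = (y0 * F) ^ 2 := by ring

lemma AHK_m0 (K : ℝ) : ∃ m0 : ℕ, ∀ m : ℕ, m0 ≤ m → K ≤ Real.exp (3 / 10000000 * (4000 * m)) := by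
  refine ⟨⌈1000 * K⌉₊, fun m hm => ?_⟩
  have h1 : 1000 * K ≤ m := (Nat.le_ceil _).trans (by exact_mod_cast hm)
  have h2 := Real.add_one_le_exp (3 / 10000000 * (4000 * (m : ℝ)))
  have h3 : (0 : ℝ) ≤ m := by positivity
  linarith

/-- the number of the large values -/
lemma AHK_V (C C2 V L F g hf E θ T p : ℝ) (hC : 1 ≤ C) (hC2 : 1 ≤ C2) (hp : 0 ≤ p) (hE : E = hf * hf) (hg : hf ≤ g)
    (hhf : 0 < hf) (hF : F = C * g) (hθ : 0 < θ) (hT : θ ^ 2 * T = hf) (hT0 : 0 < T) (hL : L ≤ C * E)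
    (hV : V * (θ * F / (2 * C * (C + 2))) ^ 2 ≤ C2 * L * F) : V ≤ 4 * C2 * C ^ 2 * (C + 2) ^ 2 * T := by
  have hC0 : 0 < C := by linarith
  have hg0 : 0 < g := by linarith
  have hF0 : 0 < F := by rw [hF]; positivity
  have ht : 0 < (θ * F / (2 * C * (C + 2))) ^ 2 := by positivity
  refine le_of_mul_le_mul_right ?_ ht
  refine hV.trans ?_
  have e1 : 4 * C2 * C ^ 2 * (C + 2) ^ 2 * T * (θ * F / (2 * C * (C + 2))) ^ 2 = C2 * (θ ^ 2 * T) * F ^ 2 := by
    field_simp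
    ring
  rw [e1, hT]
  calc C2 * L * F ≤ C2 * (C * E) * F := by gcongr
    _ = C2 * (C * (hf * hf)) * F := by rw [hE]
    _ ≤ C2 * (C * (hf * g)) * F := by gcongr
    _ = C2 * hf * (C * g) * F := by ring
    _ = C2 * hf * F ^ 2 := by rw [← hF]; ring

/-- the graph of a bad block -/
lemma AHK_R (C g h θ b n r : ℝ) (hC : 1 ≤ C) (hg : 0 < g) (hh : 0 < h) (hθ : 0 < θ) (hn0 : 0 ≤ n)
    (hn : n ≤ C * (C + 2) * g) (hb0 : 0 ≤ b) (hb1 : θ * (C * (g ^ 3 * h)) * (C * g) ≤ Real.sqrt b)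
    (hb2 : b ≤ (C * (g ^ 2 * h)) ^ 2 * ((C * g) ^ 2 * r + (θ * (C * g) / (2 * C * (C + 2))) ^ 2 * n ^ 2)) :
    3 / 4 * θ ^ 2 * g ^ 2 ≤ r := by
  have hC0 : 0 < C := by linarith
  have k1 : (θ * (C * (g ^ 3 * h)) * (C * g)) ^ 2 ≤ b := by
    have h1 : (θ * (C * (g ^ 3 * h)) * (C * g)) ^ 2 ≤ Real.sqrt b ^ 2 := pow_le_pow_left₀ (by positivity) hb1 2
    rwa [Real.sq_sqrt hb0] at h1
  have k2 : (θ * (C * g) / (2 * C * (C + 2))) ^ 2 * n ^ 2 ≤ (C * g) ^ 2 * (1 / 4 * θ ^ 2 * g ^ 2) := by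
    calc (θ * (C * g) / (2 * C * (C + 2))) ^ 2 * n ^ 2
        ≤ (θ * (C * g) / (2 * C * (C + 2))) ^ 2 * (C * (C + 2) * g) ^ 2 := by gcongr
      _ = (C * g) ^ 2 * (1 / 4 * θ ^ 2 * g ^ 2) := by
        field_simp
        ring
  have k3 : (C * (g ^ 2 * h)) ^ 2 * ((C * g) ^ 2 * (θ ^ 2 * g ^ 2)) ≤
      (C * (g ^ 2 * h)) ^ 2 * ((C * g) ^ 2 * (r + 1 / 4 * θ ^ 2 * g ^ 2)) := by
    calc (C * (g ^ 2 * h)) ^ 2 * ((C * g) ^ 2 * (θ ^ 2 * g ^ 2)) = (θ * (C * (g ^ 3 * h)) * (C * g)) ^ 2 := by ring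
      _ ≤ b := k1
      _ ≤ _ := hb2
      _ ≤ (C * (g ^ 2 * h)) ^ 2 * ((C * g) ^ 2 * r + (C * g) ^ 2 * (1 / 4 * θ ^ 2 * g ^ 2)) := by gcongr
      _ = _ := by ring
  have k4 := le_of_mul_le_mul_left k3 (by positivity)
  have k5 := le_of_mul_le_mul_left k4 (by positivity)
  linarith

theorem AHK_proof (h1 : AVI_stmt) (h2 : ABG_stmt) (h3 : ACV_stmt) : AHK_stmt := by
  classical
  intro C hC
  obtain ⟨C2, hC2, hAVI⟩ := h1 C hC
  have hC0 : 0 < C := by linarith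
  set C1 : ℝ := 4 * C2 * C ^ 2 * (C + 2) ^ 2 + 4 * C with hC1
  have hC1a : 4 * C2 * C ^ 2 * (C + 2) ^ 2 ≤ C1 := by rw [hC1]; linarith
  have hC1b : 4 * C ≤ C1 := by
    rw [hC1]
    have : 0 ≤ 4 * C2 * C ^ 2 * (C + 2) ^ 2 := by positivity
    linarith
  have hC1c : 4 * (C ^ 2 * (C + 2) ^ 2) ≤ C1 := by
    refine le_trans ?_ hC1a
    have : 0 ≤ C ^ 2 * (C + 2) ^ 2 := by positivity
    nlinarith
  have hC10 : 0 < C1 := by linarith
  obtain ⟨m0, hm0⟩ := AHK_m0 ((C + C1) * C ^ 2)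
  refine ⟨C1, m0, by linarith, ?_⟩
  intro m L S P X hm hL1 hL2 hSTR hq
  have hK := hm0 m hm
  have hm' : (0 : ℝ) ≤ 4000 * m := by positivity
  set p : ℝ := 4000 * (m : ℝ) with hp
  have hL0 : 1 ≤ L := by
    have : (1 : ℝ) ≤ L := (Real.one_le_exp hm').trans hL1
    exact_mod_cast this
  set g : ℝ := Real.exp ((1 / 2 + eta) * p) with hg
  set θ : ℝ := Real.exp (-p / 400000) with hθ
  set hf : ℝ := Real.exp (p / 2) with hhf
  have hg0 : 0 < g := Real.exp_pos _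
  have hθ0 : 0 < θ := Real.exp_pos _
  have hf0 : 0 < hf := Real.exp_pos _
  have heta : eta = 1 / 5000000 := rfl
  have hgf : hf ≤ g := by
    rw [hg, hhf, Real.exp_le_exp, heta]
    nlinarith
  have hg2 : Real.exp ((1 / 2 + eta) * (2 * p)) = g ^ 2 := by
    rw [hg, ← Real.exp_nat_mul]
    congr 1
    push_cast
    ring
  have hE : Real.exp p = hf * hf := by
    rw [hhf, ← Real.exp_add]
    congr 1
    ring
  have hθ2 : Real.exp (-2 * p / 400000) = θ ^ 2 := by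
    rw [hθ, ← Real.exp_nat_mul]
    congr 1
    push_cast
    ring
  have hF : ∀ I ∈ S, ((P I).card : ℝ) ≤ C * g := hSTR.f0
  refine ⟨fun I => Vs (P I) L (θ * (C * g) / (2 * C * (C + 2))), ?_, ?_⟩
  · intro I hI
    have k1 := hAVI (P I) L (θ * (C * g) / (2 * C * (C + 2))) hL0 (hq I hI) (by positivity)
    have k2 : C2 * (L : ℝ) * (P I).card ≤ C2 * L * (C * g) := by
      have := hF I hI
      gcongr
    have hT : θ ^ 2 * Real.exp ((1 / 2 + 2 / 400000) * p) = hf := by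
      rw [← hθ2, hhf, ← Real.exp_add]
      congr 1
      ring
    have k3 := AHK_V C C2 _ (L : ℝ) (C * g) g hf (Real.exp p) θ (Real.exp ((1 / 2 + 2 / 400000) * p)) p hC hC2 hm' hE hgf hf0 rfl
      hθ0 hT (Real.exp_pos _) hL2 (k1.trans k2)
    refine k3.trans ?_
    exact mul_le_mul_of_nonneg_right hC1a (Real.exp_pos _).le
  · intro w κ Y hw hκ1 hκ2 hY hsum
    set h : ℝ := Real.exp (-(3 * p)) with hh
    have hh0 : 0 < h := Real.exp_pos _
    have hy2 : C * Real.exp ((1 / 2 + eta) * (2 * p) - 3 * p) = C * (g ^ 2 * h) := by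
      rw [sub_eq_add_neg, Real.exp_add, hg2]
    have hy0 : C * Real.exp ((1 / 2 + eta) * (3 * p) - 3 * p) = C * (g ^ 3 * h) := by
      rw [sub_eq_add_neg, Real.exp_add, hg, ← Real.exp_nat_mul]
      congr 3
      push_cast
      ring
    obtain ⟨c1, c2, c3⟩ := h3 C m L Y hC hL1 hL2 hY
    rw [← hp] at c1 c2
    rw [hy2] at c1
    have hv0 : volume.real Y ≤ C * (g ^ 3 * h) := by
      have := hY.v0
      rw [← hp, hy0] at this
      exact this
    set n : ℝ := ((ac L Y).card : ℝ) with hn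
    have hn0 : 0 ≤ n := by rw [hn]; positivity
    set t : ℝ := θ * (C * g) / (2 * C * (C + 2)) with ht
    have ht0 : 0 ≤ t := by rw [ht]; positivity
    set b : ℤ → ℝ := fun I => ∫ v in Y, ∫ v' in Y, ‖IR.ps (P I) (κ * IR.om w (X I) * (v - v'))‖ ^ 2 with hb
    have hb0 : ∀ I, 0 ≤ b I := fun I => by
      simp only [hb]
      refine integral_nonneg (fun v => integral_nonneg (fun v' => ?_))
      positivity
    have hbs : ∀ I ∈ S, Real.sqrt (b I) ≤ C * (g ^ 3 * h) * (C * g) := fun I hI =>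
      AHK_b (P I) _ (C * g) (C * (g ^ 3 * h)) Y hY.sb (hF I hI) hv0 (by positivity)
    have hs : ∀ I ∈ S, 0 ≤ κ * IR.om w (X I) ∧ κ * IR.om w (X I) ≤ 8 := fun I hI => by
      obtain ⟨q1, q2⟩ := Pool.Agent.IR.PAV_om w (X I) hw (hSTR.x0 I hI)
      unfold IR.om
      have q3 : (1 : ℝ) / 4 ≤ (1 - w * X I) ^ 2 := by nlinarith
      have q4 : 1 / (1 - w * X I) ^ 2 ≤ 4 := by
        rw [div_le_iff₀ (by linarith)]
        linarith
      have q5 : 0 ≤ 1 / (1 - w * X I) ^ 2 := by positivity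
      refine ⟨mul_nonneg (by linarith) q5, ?_⟩
      calc κ * (1 / (1 - w * X I) ^ 2) ≤ 2 * 4 := mul_le_mul hκ2 q4 q5 (by norm_num)
        _ = 8 := by norm_num
    set B : Finset ℤ := S.filter (fun I => θ * (C * (g ^ 3 * h)) * (C * g) ≤ Real.sqrt (b I)) with hB
    have hR : ∀ I ∈ B, 3 / 4 * θ ^ 2 * g ^ 2 ≤ ((gr (P I) L (κ * IR.om w (X I)) t (ac L Y)).card : ℝ) := by
      intro I hI
      obtain ⟨hIS, hIb⟩ := Finset.mem_filter.1 hI
      have k1 := h2.1 (P I) L (κ * IR.om w (X I)) t (C * (g ^ 2 * h)) (C * g) Y hL0 (hs I hIS).1 (hs I hIS).2 ht0 hY.ms hY.sb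
        (hF I hIS) c1
      exact AHK_R C g h θ (b I) n _ hC hg0 hh0 hθ0 hn0 c2 (hb0 I) hIb k1
    have hBc : θ * (C1 * g ^ 2) ≤ (B.card : ℝ) := by
      by_contra hcon
      rw [not_le] at hcon
      have k1 : ∑ I ∈ S, Real.sqrt (b I) ≤ (C * g ^ 2 * θ + B.card) * (C * (g ^ 3 * h) * (C * g)) := by
        rw [← Finset.sum_filter_add_sum_filter_not S (fun I => θ * (C * (g ^ 3 * h)) * (C * g) ≤ Real.sqrt (b I))]
        have k2 : ∑ I ∈ S.filter (fun I => θ * (C * (g ^ 3 * h)) * (C * g) ≤ Real.sqrt (b I)), Real.sqrt (b I) ≤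
            B.card * (C * (g ^ 3 * h) * (C * g)) := by
          calc _ ≤ ∑ I ∈ B, C * (g ^ 3 * h) * (C * g) :=
                Finset.sum_le_sum (fun I hI => hbs I (Finset.mem_filter.1 hI).1)
            _ = _ := by rw [Finset.sum_const, nsmul_eq_mul]
        have k3 : ∑ I ∈ S.filter (fun I => ¬ θ * (C * (g ^ 3 * h)) * (C * g) ≤ Real.sqrt (b I)), Real.sqrt (b I) ≤
            C * g ^ 2 * (θ * (C * (g ^ 3 * h)) * (C * g)) := by
          calc _ ≤ ∑ I ∈ S.filter (fun I => ¬ θ * (C * (g ^ 3 * h)) * (C * g) ≤ Real.sqrt (b I)), θ * (C * (g ^ 3 * h)) * (C * g) :=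
                Finset.sum_le_sum (fun I hI => (not_le.1 (Finset.mem_filter.1 hI).2).le)
            _ = ((S.filter (fun I => ¬ θ * (C * (g ^ 3 * h)) * (C * g) ≤ Real.sqrt (b I))).card : ℝ) *
                (θ * (C * (g ^ 3 * h)) * (C * g)) := by rw [Finset.sum_const, nsmul_eq_mul]
            _ ≤ C * g ^ 2 * (θ * (C * (g ^ 3 * h)) * (C * g)) := by
              refine mul_le_mul_of_nonneg_right ?_ (by positivity)
              have k4 : ((S.filter (fun I => ¬ θ * (C * (g ^ 3 * h)) * (C * g) ≤ Real.sqrt (b I))).card : ℝ) ≤ S.card := by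
                exact_mod_cast Finset.card_filter_le _ _
              have k5 := hSTR.m0
              rw [hg2] at k5
              exact k4.trans k5
        calc _ ≤ B.card * (C * (g ^ 3 * h) * (C * g)) + C * g ^ 2 * (θ * (C * (g ^ 3 * h)) * (C * g)) := add_le_add k2 k3
          _ = _ := by ring
      have k6 : (C * g ^ 2 * θ + B.card) * (C * (g ^ 3 * h) * (C * g)) ≤
          (C + C1) * C ^ 2 * (θ * (g ^ 6 * h)) := by
        calc (C * g ^ 2 * θ + B.card) * (C * (g ^ 3 * h) * (C * g)) ≤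
              (C * g ^ 2 * θ + θ * (C1 * g ^ 2)) * (C * (g ^ 3 * h) * (C * g)) := by
              refine mul_le_mul_of_nonneg_right ?_ (by positivity)
              linarith
          _ = _ := by ring
      have k7 : (C + C1) * C ^ 2 * (θ * (g ^ 6 * h)) ≤ Real.exp (-p / 1000000) := by
        have k8 : θ * (g ^ 6 * h) = Real.exp (-(13 / 10000000) * p) := by
          rw [hθ, hg, hh, ← Real.exp_nat_mul, ← Real.exp_add, ← Real.exp_add, heta]
          congr 1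
          push_cast
          ring
        rw [k8]
        calc (C + C1) * C ^ 2 * Real.exp (-(13 / 10000000) * p) ≤
              Real.exp (3 / 10000000 * p) * Real.exp (-(13 / 10000000) * p) :=
              mul_le_mul_of_nonneg_right hK (Real.exp_pos _).le
          _ = Real.exp (-p / 1000000) := by
            rw [← Real.exp_add]
            congr 1
            ring
      exact absurd (k1.trans (k6.trans k7)) (not_le.2 hsum)
    refine ⟨ac L Y, B, fun I => gr (P I) L (κ * IR.om w (X I)) t (ac L Y), ?_, ?_, Finset.filter_subset _ _, ?_, ?_⟩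
    · have hBpos : 0 < (B.card : ℝ) := lt_of_lt_of_le (by positivity) hBc
      obtain ⟨I, hI⟩ := Finset.card_pos.1 (by exact_mod_cast hBpos : 0 < B.card)
      have k1 := hR I hI
      have k2 : ((gr (P I) L (κ * IR.om w (X I)) t (ac L Y)).card : ℝ) ≤ n ^ 2 := by
        have k3 : (gr (P I) L (κ * IR.om w (X I)) t (ac L Y)).card ≤ (ac L Y).card ^ 2 := by
          calc _ ≤ ((ac L Y) ×ˢ (ac L Y)).card := Finset.card_filter_le _ _
            _ = (ac L Y).card ^ 2 := by rw [Finset.card_product]; ring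
        rw [hn]
        exact_mod_cast k3
      have k4 : (θ * g / 2) ^ 2 ≤ n ^ 2 := by
        refine le_trans ?_ (k1.trans k2)
        have : 0 ≤ θ ^ 2 * g ^ 2 := by positivity
        have e : (θ * g / 2) ^ 2 = θ ^ 2 * g ^ 2 / 4 := by ring
        rw [e]
        linarith
      have k5 : θ * g / 2 ≤ n := (pow_le_pow_iff_left₀ (by positivity) hn0 (by norm_num : (2 : ℕ) ≠ 0)).1 k4
      have k6 : Real.exp ((1 / 2 - 1 / 400000) * p) ≤ θ * g := by
        have e : Real.exp ((1 / 2 - 1 / 400000) * p) = θ * hf := by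
          rw [hθ, hhf, ← Real.exp_add]
          congr 1
          ring
        rw [e]
        exact mul_le_mul_of_nonneg_left hgf hθ0.le
      have k7 : 2 * n ≤ C1 * n := mul_le_mul_of_nonneg_right (by linarith) hn0
      linarith
    · refine ⟨c3.1, fun i j hij hj v K hK => (c3.2 i j hij hj v K hK).trans ?_⟩
      exact mul_le_mul_of_nonneg_right hC1b (Real.exp_pos _).le
    · rw [hg2]
      exact hBc
    · intro I hI
      have hIS := (Finset.mem_filter.1 hI).1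
      refine ⟨Finset.filter_subset _ _, ?_, ?_⟩
      · rw [hθ2]
        have k1 := hR I hI
        have k2 : n ^ 2 ≤ (C * (C + 2) * g) ^ 2 := pow_le_pow_left₀ hn0 c2 2
        calc θ ^ 2 * n ^ 2 ≤ θ ^ 2 * (C * (C + 2) * g) ^ 2 := by gcongr
          _ = (4 / 3 * (C ^ 2 * (C + 2) ^ 2)) * (3 / 4 * θ ^ 2 * g ^ 2) := by ring
          _ ≤ C1 * (3 / 4 * θ ^ 2 * g ^ 2) := by
            refine mul_le_mul_of_nonneg_right ?_ (by positivity)
            have : 0 ≤ C ^ 2 * (C + 2) ^ 2 := by positivity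
            linarith
          _ ≤ C1 * ((gr (P I) L (κ * IR.om w (X I)) t (ac L Y)).card : ℝ) := mul_le_mul_of_nonneg_left k1 hC10.le
      · intro z hz
        refine h2.2 (P I) L (κ * IR.om w (X I)) t (ac L Y) hL0 (hs I hIS).1 (hs I hIS).2 (fun a ha => ?_) z hz
        exact Finset.mem_Icc.1 (Finset.mem_filter.1 ha).1

end

end Pool.Agent.HH
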