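import Pool.Agent.helper17.HH.SpecB

/-!
# HH, row BGR: Balog-Szemeredi-Gowers, graph form
-/

open scoped Pointwise
open MeasureTheory Set

set_option autoImplicit false

namespace Pool.Agent.HH

noncomputable section

lemma BGR_prod (S T : Finset ℤ) (p : ℤ → ℤ → Prop) [∀ x y, Decidable (p x y)] :
    ((S ×ˢ T).filter (fun z => p z.1 z.2)).card = ∑ x ∈ S, (T.filter (fun y => p x y)).card := by
  simp only [Finset.card_filter, Finset.sum_product]

/-- Markov: the elements with a small value do not contribute much -/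
lemma BGR_low {ι : Type} (S : Finset ι) (f : ι → ℝ) (t c : ℝ) (h : c ≤ ∑ i ∈ S, f i) (ht : 0 ≤ t) :
    c - t * S.card ≤ ∑ i ∈ S.filter (fun i => t ≤ f i), f i := by
  have h1 := Finset.sum_filter_add_sum_filter_not S (fun i => t ≤ f i) f
  have h2 : ∑ i ∈ S.filter (fun i => ¬ t ≤ f i), f i ≤ t * S.card := by
    calc ∑ i ∈ S.filter (fun i => ¬ t ≤ f i), f i ≤ ∑ i ∈ S.filter (fun i => ¬ t ≤ f i), t :=
          Finset.sum_le_sum (fun i hi => (not_le.1 (Finset.mem_filter.1 hi).2).le)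
      _ = t * (S.filter (fun i => ¬ t ≤ f i)).card := by rw [Finset.sum_const, nsmul_eq_mul, mul_comm]
      _ ≤ t * S.card := by
        refine mul_le_mul_of_nonneg_left ?_ ht
        exact_mod_cast Finset.card_filter_le _ _
  linarith

/-- Markov: few elements with a large value -/
lemma BGR_high {ι : Type} (S : Finset ι) (f : ι → ℝ) (t c : ℝ) (h : ∑ i ∈ S, f i ≤ c) (hf : ∀ i ∈ S, 0 ≤ f i) :
    t * (S.filter (fun i => ¬ f i ≤ t)).card ≤ c := by
  have h1 : ∑ i ∈ S.filter (fun i => ¬ f i ≤ t), f i ≤ ∑ i ∈ S, f i :=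
    Finset.sum_le_sum_of_subset_of_nonneg (Finset.filter_subset _ _) (fun i hi _ => hf i hi)
  have h2 : t * (S.filter (fun i => ¬ f i ≤ t)).card ≤ ∑ i ∈ S.filter (fun i => ¬ f i ≤ t), f i := by
    calc t * (S.filter (fun i => ¬ f i ≤ t)).card = ∑ i ∈ S.filter (fun i => ¬ f i ≤ t), t := by
          rw [Finset.sum_const, nsmul_eq_mul, mul_comm]
      _ ≤ _ := Finset.sum_le_sum (fun i hi => (not_le.1 (Finset.mem_filter.1 hi).2).le)
  linarith

theorem BGR_proof : BGR_stmt := by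
  classical
  intro α A R hα hα1 hR hcard
  rcases A.eq_empty_or_nonempty with rfl | hA
  · refine ⟨∅, le_refl _, ∅, le_refl _, by simp, by simp, ?_⟩
    intro a ha
    simp at ha
  set n : ℝ := (A.card : ℝ) with hn
  have hn0 : 0 < n := by rw [hn]; exact_mod_cast hA.card_pos
  set deg : ℤ → ℝ := fun a => ((A.filter fun b => (a, b) ∈ R).card : ℝ) with hdeg
  -- the sum of the degrees
  have s1 : ∑ a ∈ A, deg a = (R.card : ℝ) := by
    have h := BGR_prod A A (fun a b => (a, b) ∈ R)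
    have h2 : (A ×ˢ A).filter (fun z : ℤ × ℤ => (z.1, z.2) ∈ R) = R := by
      ext z
      rw [Finset.mem_filter]
      exact ⟨fun h => h.2, fun h => ⟨hR h, h⟩⟩
    rw [h2] at h
    rw [h]
    push_cast
    rfl
  set A0 : Finset ℤ := A.filter (fun a => α / 2 * n ≤ deg a) with hA0
  have hA0A : A0 ⊆ A := Finset.filter_subset _ _
  have s2 : α / 2 * n ^ 2 ≤ ∑ a ∈ A0, deg a := by
    have h := BGR_low A deg (α / 2 * n) (α * n ^ 2) (by rw [s1]; exact hcard) (by positivity)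
    have h3 : α * n ^ 2 - α / 2 * n * (A.card : ℝ) = α / 2 * n ^ 2 := by rw [← hn]; ring
    rw [h3] at h
    exact h
  set Nb : ℤ → Finset ℤ := fun b => A0.filter (fun a => (a, b) ∈ R) with hNb
  have s3 : ∑ a ∈ A0, deg a = ∑ b ∈ A, ((Nb b).card : ℝ) := by
    have h := Finset.sum_card_bipartiteAbove_eq_sum_card_bipartiteBelow (s := A0) (t := A) (fun a b : ℤ => (a, b) ∈ R)
    have h2 : ((∑ a ∈ A0, (A.filter fun b => (a, b) ∈ R).card : ℕ) : ℝ) = ((∑ b ∈ A, (A0.filter (fun a => (a, b) ∈ R)).card : ℕ) : ℝ) := by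
      exact_mod_cast h
    push_cast at h2
    exact h2
  have s4 : α ^ 2 / 4 * n ^ 3 ≤ ∑ b ∈ A, ((Nb b).card : ℝ) ^ 2 := by
    have h : (∑ b ∈ A, ((Nb b).card : ℝ)) ^ 2 ≤ A.card * ∑ b ∈ A, ((Nb b).card : ℝ) ^ 2 := sq_sum_le_card_mul_sum_sq
    rw [← hn, ← s3] at h
    have h2 : (α / 2 * n ^ 2) ^ 2 ≤ (∑ a ∈ A0, deg a) ^ 2 := pow_le_pow_left₀ (by positivity) s2 2
    have h3 : n * (α ^ 2 / 4 * n ^ 3) ≤ n * ∑ b ∈ A, ((Nb b).card : ℝ) ^ 2 := by
      calc n * (α ^ 2 / 4 * n ^ 3) = (α / 2 * n ^ 2) ^ 2 := by ring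
        _ ≤ _ := h2.trans h
    exact le_of_mul_le_mul_left h3 hn0
  set cn : ℤ → ℤ → ℝ := fun a a' => ((A.filter fun b => (a, b) ∈ R ∧ (a', b) ∈ R).card : ℝ) with hcn
  set Om : Finset (ℤ × ℤ) := (A0 ×ˢ A0).filter (fun z => cn z.1 z.2 < α ^ 3 / 128 * n) with hOm
  set Mb : ℤ → Finset (ℤ × ℤ) := fun b => Om.filter (fun z => (z.1, b) ∈ R ∧ (z.2, b) ∈ R) with hMb
  have s5 : ∑ b ∈ A, ((Mb b).card : ℝ) ≤ α ^ 3 / 128 * n ^ 3 := by
    have h := Finset.sum_card_bipartiteAbove_eq_sum_card_bipartiteBelow (s := Om) (t := A)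
      (fun (z : ℤ × ℤ) (b : ℤ) => (z.1, b) ∈ R ∧ (z.2, b) ∈ R)
    have h2 : ((∑ z ∈ Om, (A.filter fun b => (z.1, b) ∈ R ∧ (z.2, b) ∈ R).card : ℕ) : ℝ) =
        ((∑ b ∈ A, (Om.filter (fun z => (z.1, b) ∈ R ∧ (z.2, b) ∈ R)).card : ℕ) : ℝ) := by
      exact_mod_cast h
    push_cast at h2
    have h3 : ∑ b ∈ A, ((Mb b).card : ℝ) = ∑ z ∈ Om, cn z.1 z.2 := h2.symm
    rw [h3]
    calc ∑ z ∈ Om, cn z.1 z.2 ≤ ∑ z ∈ Om, α ^ 3 / 128 * n :=
          Finset.sum_le_sum (fun z hz => (Finset.mem_filter.1 hz).2.le)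
      _ = Om.card * (α ^ 3 / 128 * n) := by rw [Finset.sum_const, nsmul_eq_mul]
      _ ≤ n ^ 2 * (α ^ 3 / 128 * n) := by
        refine mul_le_mul_of_nonneg_right ?_ (by positivity)
        have h4 : Om.card ≤ A.card ^ 2 := by
          calc Om.card ≤ (A0 ×ˢ A0).card := Finset.card_filter_le _ _
            _ = A0.card * A0.card := Finset.card_product _ _
            _ ≤ A.card * A.card := Nat.mul_le_mul (Finset.card_le_card hA0A) (Finset.card_le_card hA0A)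
            _ = A.card ^ 2 := by ring
        rw [hn]
        exact_mod_cast h4
      _ = α ^ 3 / 128 * n ^ 3 := by ring
  -- the choice of `b0`
  obtain ⟨b0, hb0, s6⟩ : ∃ b0 ∈ A, α ^ 3 / 128 * n ^ 2 ≤ α / 16 * ((Nb b0).card : ℝ) ^ 2 - ((Mb b0).card : ℝ) := by
    refine Finset.exists_le_of_sum_le hA ?_
    rw [Finset.sum_const, nsmul_eq_mul, Finset.sum_sub_distrib, ← Finset.mul_sum, ← hn]
    have h : α / 16 * (α ^ 2 / 4 * n ^ 3) ≤ α / 16 * ∑ b ∈ A, ((Nb b).card : ℝ) ^ 2 :=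
      mul_le_mul_of_nonneg_left s4 (by positivity)
    have h2 : n * (α ^ 3 / 128 * n ^ 2) = α / 16 * (α ^ 2 / 4 * n ^ 3) - α ^ 3 / 128 * n ^ 3 := by ring
    rw [h2]
    linarith
  set A1 : Finset ℤ := Nb b0 with hA1
  set m : ℝ := (A1.card : ℝ) with hm
  have hA1A0 : A1 ⊆ A0 := Finset.filter_subset _ _
  have hA1A : A1 ⊆ A := hA1A0.trans hA0A
  have hMm : ((Mb b0).card : ℝ) ≤ α / 16 * m ^ 2 := by
    have : 0 ≤ α ^ 3 / 128 * n ^ 2 := by positivity
    linarith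
  have hm2 : α ^ 2 / 8 * n ^ 2 ≤ m ^ 2 := by
    have h : α / 16 * (α ^ 2 / 8 * n ^ 2) ≤ α / 16 * m ^ 2 := by
      have h1 : (0 : ℝ) ≤ ((Mb b0).card : ℝ) := by positivity
      have h2 : α / 16 * (α ^ 2 / 8 * n ^ 2) = α ^ 3 / 128 * n ^ 2 := by ring
      rw [h2]
      linarith
    exact le_of_mul_le_mul_left h (by positivity)
  have hm0 : 0 ≤ m := by rw [hm]; positivity
  have hmn : α * n / 3 ≤ m := by
    rw [← pow_le_pow_iff_left₀ (by positivity) hm0 (by norm_num : (2 : ℕ) ≠ 0)]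
    refine le_trans ?_ hm2
    have : 0 ≤ α ^ 2 * n ^ 2 := by positivity
    have e : (α * n / 3) ^ 2 = α ^ 2 * n ^ 2 / 9 := by ring
    rw [e]
    linarith
  have hmpos : 0 < m := lt_of_lt_of_le (by positivity) hmn
  -- the set `A'`
  set bad : ℤ → ℝ := fun a => ((A1.filter fun a' => (a, a') ∈ Om).card : ℝ) with hbad
  have s7 : ∑ a ∈ A1, bad a ≤ α / 16 * m ^ 2 := by
    have h := BGR_prod A1 A1 (fun a a' => (a, a') ∈ Om)
    have h2 : ∑ a ∈ A1, bad a = (((A1 ×ˢ A1).filter (fun z : ℤ × ℤ => (z.1, z.2) ∈ Om)).card : ℝ) := by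
      rw [h]
      push_cast
      rfl
    rw [h2]
    refine le_trans ?_ hMm
    have h3 : (A1 ×ˢ A1).filter (fun z : ℤ × ℤ => (z.1, z.2) ∈ Om) ⊆ Mb b0 := by
      intro z hz
      obtain ⟨h4, h5⟩ := Finset.mem_filter.1 hz
      obtain ⟨h6, h7⟩ := Finset.mem_product.1 h4
      exact Finset.mem_filter.2 ⟨h5, (Finset.mem_filter.1 h6).2, (Finset.mem_filter.1 h7).2⟩
    exact_mod_cast Finset.card_le_card h3
  set A' : Finset ℤ := A1.filter (fun a => bad a ≤ α / 8 * m) with hA'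
  have s8 : m / 2 ≤ (A'.card : ℝ) := by
    have h := BGR_high A1 bad (α / 8 * m) (α / 16 * m ^ 2) s7 (fun i _ => by simp only [hbad]; positivity)
    have h2 : ((A1.filter (fun a => bad a ≤ α / 8 * m)).card : ℝ) + (A1.filter (fun a => ¬ bad a ≤ α / 8 * m)).card = m := by
      rw [hm]
      exact_mod_cast Finset.card_filter_add_card_filter_not (s := A1) (fun a => bad a ≤ α / 8 * m)
    have h3 : (α / 8 * m) * ((A1.filter (fun a => ¬ bad a ≤ α / 8 * m)).card : ℝ) ≤ (α / 8 * m) * (m / 2) := by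
      refine h.trans (le_of_eq ?_)
      ring
    have h4 := le_of_mul_le_mul_left h3 (by positivity)
    rw [hA']
    linarith
  -- the set `B'`
  set gd : ℤ → ℝ := fun b => ((A1.filter fun a => (a, b) ∈ R).card : ℝ) with hgd
  have s9 : α / 2 * n * m ≤ ∑ b ∈ A, gd b := by
    have h := Finset.sum_card_bipartiteAbove_eq_sum_card_bipartiteBelow (s := A1) (t := A) (fun a b : ℤ => (a, b) ∈ R)
    have h2 : ((∑ a ∈ A1, (A.filter fun b => (a, b) ∈ R).card : ℕ) : ℝ) = ((∑ b ∈ A, (A1.filter (fun a => (a, b) ∈ R)).card : ℕ) : ℝ) := by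
      exact_mod_cast h
    push_cast at h2
    have h3 : ∑ b ∈ A, gd b = ∑ a ∈ A1, deg a := h2.symm
    rw [h3]
    calc α / 2 * n * m = ∑ a ∈ A1, α / 2 * n := by rw [Finset.sum_const, nsmul_eq_mul, mul_comm]
      _ ≤ ∑ a ∈ A1, deg a := Finset.sum_le_sum (fun a ha => (Finset.mem_filter.1 (hA1A0 ha)).2)
  set B' : Finset ℤ := A.filter (fun b => α / 4 * m ≤ gd b) with hB'
  have s10 : α / 4 * n ≤ (B'.card : ℝ) := by
    have h := BGR_low A gd (α / 4 * m) (α / 2 * n * m) s9 (by positivity)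
    have h2 : ∑ b ∈ B', gd b ≤ B'.card * m := by
      calc ∑ b ∈ B', gd b ≤ ∑ b ∈ B', m := Finset.sum_le_sum (fun b _ => by
            simp only [hgd, hm]
            exact_mod_cast Finset.card_filter_le _ _)
        _ = B'.card * m := by rw [Finset.sum_const, nsmul_eq_mul]
    have h3 : m * (α / 4 * n) ≤ m * (B'.card : ℝ) := by
      have h4 : α / 2 * n * m - α / 4 * m * (A.card : ℝ) = m * (α / 4 * n) := by rw [← hn]; ring
      rw [h4] at h
      linarith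
    exact le_of_mul_le_mul_left h3 hmpos
  refine ⟨A', (Finset.filter_subset _ _).trans hA1A, B', Finset.filter_subset _ _, ?_, ?_, ?_⟩
  · linarith
  · have : 0 < α * n := by positivity
    linarith
  · intro a ha b hb
    obtain ⟨ha1, ha2⟩ := Finset.mem_filter.1 ha
    obtain ⟨hb1, hb2⟩ := Finset.mem_filter.1 hb
    have haA0 : a ∈ A0 := hA1A0 ha1
    set X : Finset ℤ := (A1.filter fun x => (x, b) ∈ R).filter (fun x => ¬ (a, x) ∈ Om) with hX
    have k1 : α / 8 * m ≤ (X.card : ℝ) := by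
      have h2 : (((A1.filter fun x => (x, b) ∈ R).filter (fun x => (a, x) ∈ Om)).card : ℝ) + X.card = gd b := by
        simp only [hgd]
        exact_mod_cast Finset.card_filter_add_card_filter_not (s := A1.filter fun x => (x, b) ∈ R) (fun x => (a, x) ∈ Om)
      have h3 : (((A1.filter fun x => (x, b) ∈ R).filter (fun x => (a, x) ∈ Om)).card : ℝ) ≤ bad a := by
        simp only [hbad]
        have h4 : (A1.filter fun x => (x, b) ∈ R).filter (fun x => (a, x) ∈ Om) ⊆ A1.filter fun a' => (a, a') ∈ Om := by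
          intro x hx
          obtain ⟨h5, h6⟩ := Finset.mem_filter.1 hx
          exact Finset.mem_filter.2 ⟨(Finset.mem_filter.1 h5).1, h6⟩
        exact_mod_cast Finset.card_le_card h4
      linarith
    have k2 : ∀ x ∈ X, α ^ 3 / 128 * n ≤ cn a x := by
      intro x hx
      obtain ⟨h1, h2⟩ := Finset.mem_filter.1 hx
      have hx0 : x ∈ A0 := hA1A0 (Finset.mem_filter.1 h1).1
      by_contra hcon
      exact h2 (Finset.mem_filter.2 ⟨Finset.mem_product.2 ⟨haA0, hx0⟩, not_le.1 hcon⟩)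
    have k3 : ((X ×ˢ A).filter (fun z : ℤ × ℤ => (a, z.2) ∈ R ∧ (z.1, z.2) ∈ R)) ⊆
        ((A ×ˢ A).filter fun z => (a, z.2) ∈ R ∧ (z.1, z.2) ∈ R ∧ (z.1, b) ∈ R) := by
      intro z hz
      obtain ⟨h1, h2, h3⟩ := Finset.mem_filter.1 hz
      obtain ⟨h4, h5⟩ := Finset.mem_product.1 h1
      have h6 := Finset.mem_filter.1 (Finset.mem_filter.1 h4).1
      exact Finset.mem_filter.2 ⟨Finset.mem_product.2 ⟨hA1A h6.1, h5⟩, h2, h3, h6.2⟩
    have k4 : (((X ×ˢ A).filter (fun z : ℤ × ℤ => (a, z.2) ∈ R ∧ (z.1, z.2) ∈ R)).card : ℝ) = ∑ x ∈ X, cn a x := by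
      have h := BGR_prod X A (fun x y => (a, y) ∈ R ∧ (x, y) ∈ R)
      rw [h]
      push_cast
      rfl
    calc α ^ 5 / 4096 * n ^ 2 ≤ (α / 8 * m) * (α ^ 3 / 128 * n) := by
          have h1 : α ^ 4 * n / 1024 * (α * n / 3) ≤ α ^ 4 * n / 1024 * m := mul_le_mul_of_nonneg_left hmn (by positivity)
          have h2 : 0 ≤ α ^ 5 * n ^ 2 := by positivity
          have h3 : α ^ 4 * n / 1024 * (α * n / 3) = α ^ 5 * n ^ 2 / 3072 := by ring
          have h4 : (α / 8 * m) * (α ^ 3 / 128 * n) = α ^ 4 * n / 1024 * m := by ring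
          rw [h4]
          rw [h3] at h1
          linarith
      _ ≤ X.card * (α ^ 3 / 128 * n) := mul_le_mul_of_nonneg_right k1 (by positivity)
      _ = ∑ x ∈ X, α ^ 3 / 128 * n := by rw [Finset.sum_const, nsmul_eq_mul]
      _ ≤ ∑ x ∈ X, cn a x := Finset.sum_le_sum k2
      _ = (((X ×ˢ A).filter (fun z : ℤ × ℤ => (a, z.2) ∈ R ∧ (z.1, z.2) ∈ R)).card : ℝ) := k4.symm
      _ ≤ _ := by exact_mod_cast Finset.card_le_card k3

end

end Pool.Agent.HH
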